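import Pool.Agent.Helper87.FX.StD

set_option autoImplicit false

namespace Pool.Agent.Helper38.FX

open Set Topology Metric Filter
open Pool.Agent.Helper87.FX
open Pool.Agent.Helper72.FX (SmZ YY WCon TgtS)

theorem uc_co {n : ℕ} (y : AV n) : uc (co y) = y := rfl

theorem co_mem {n : ℕ} (F : MvPolynomial (Fin n) ℂ) (y : AV n) (hy : y ∈ YC F) : co y ∈ YY F := by
  have h : y.1 * y.2.1 - MvPolynomial.eval y.2.2 F = 0 := hy
  exact sub_eq_zero.1 h

theorem uc_mem {n : ℕ} (F : MvPolynomial (Fin n) ℂ) (x : Fin 2 ⊕ Fin n → ℂ) (hx : x ∈ YY F) : uc x ∈ YC F := by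
  have h : x (Sum.inl 0) * x (Sum.inl 1) = MvPolynomial.eval (fun j => x (Sum.inr j)) F := hx
  exact sub_eq_zero.2 h

theorem co_cont {n : ℕ} : Continuous (co : AV n → (Fin 2 ⊕ Fin n → ℂ)) := by
  refine continuous_pi (fun i => ?_)
  rcases i with i | j
  · fin_cases i
    · exact continuous_fst
    · exact continuous_fst.comp continuous_snd
  · exact (continuous_apply j).comp (continuous_snd.comp continuous_snd)

theorem uc_cont {n : ℕ} : Continuous (uc : (Fin 2 ⊕ Fin n → ℂ) → AV n) := by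
  refine Continuous.prodMk (continuous_apply _) (Continuous.prodMk (continuous_apply _) ?_)
  exact continuous_pi (fun j => continuous_apply _)

/-- from the ball to the cube -/
noncomputable def ell {k : ℕ} (x : Fin k → ℝ) : Fin k → ℝ := fun i => (x i + 1) / 2

/-- from the cube to the ball -/
def emm {k : ℕ} (x : Fin k → ℝ) : Fin k → ℝ := fun i => 2 * x i - 1

theorem ell_emm {k : ℕ} (x : Fin k → ℝ) : ell (emm x) = x := by
  funext i
  simp only [ell, emm]
  ring

theorem ell_cont {k : ℕ} : Continuous (ell : (Fin k → ℝ) → (Fin k → ℝ)) := by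
  refine continuous_pi (fun i => ?_)
  exact ((continuous_apply i).add continuous_const).div_const 2

theorem emm_cont {k : ℕ} : Continuous (emm : (Fin k → ℝ) → (Fin k → ℝ)) := by
  refine continuous_pi (fun i => ?_)
  exact (continuous_const.mul (continuous_apply i)).sub continuous_const

theorem ell_bdc {k : ℕ} (x : Fin k → ℝ) (hx : x ∈ sphere (0 : Fin k → ℝ) 1) : ell x ∈ bdc k := by
  have h1 : ‖x‖ = 1 := by simpa using hx
  have h2 : ∀ i, |x i| ≤ 1 := fun i => by
    have := norm_le_pi_norm x i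
    rwa [h1, Real.norm_eq_abs] at this
  refine ⟨⟨fun i => ?_, fun i => ?_⟩, ?_⟩
  · have := (abs_le.1 (h2 i)).1
    simp only [ell, Pi.zero_apply]
    linarith
  · have := (abs_le.1 (h2 i)).2
    simp only [ell, Pi.one_apply]
    linarith
  · by_contra h3
    push Not at h3
    have h4 : ‖x‖ < 1 := by
      rw [pi_norm_lt_iff one_pos]
      intro i
      rw [Real.norm_eq_abs]
      refine lt_of_le_of_ne (h2 i) (fun h5 => ?_)
      obtain ⟨h6, h7⟩ := h3 i
      simp only [ell] at h6 h7
      rcases eq_or_eq_neg_of_abs_eq h5 with h8 | h8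
      · apply h7
        rw [h8]
        norm_num
      · apply h6
        rw [h8]
        norm_num
    linarith

theorem emm_ball {k : ℕ} (x : Fin k → ℝ) (hx : x ∈ cub k) : emm x ∈ closedBall (0 : Fin k → ℝ) 1 := by
  rw [mem_closedBall_zero_iff, pi_norm_le_iff_of_nonneg zero_le_one]
  intro i
  have h1 : 0 ≤ x i := hx.1 i
  have h2 : x i ≤ 1 := hx.2 i
  rw [Real.norm_eq_abs, abs_le]
  simp only [emm]
  constructor <;> linarith

theorem emm_sphere {k : ℕ} (x : Fin k → ℝ) (hx : x ∈ bdc k) : emm x ∈ sphere (0 : Fin k → ℝ) 1 := by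
  rw [mem_sphere_zero_iff_norm]
  apply le_antisymm
  · exact mem_closedBall_zero_iff.1 (emm_ball x hx.1)
  · obtain ⟨i, hi⟩ := hx.2
    have h1 := norm_le_pi_norm (emm x) i
    refine le_trans ?_ h1
    rw [Real.norm_eq_abs]
    simp only [emm]
    rcases hi with hi | hi
    · rw [hi]; norm_num
    · rw [hi]; norm_num

theorem hBRG : StBRG := by
  intro n F h k v hv hvY
  classical
  let v' : sphere (0 : Fin k → ℝ) 1 → YY F := fun x => ⟨co (v (ell x.1)), co_mem F _ (hvY (ell_bdc x.1 x.2))⟩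
  have hv' : Continuous v' := by
    refine Continuous.subtype_mk (co_cont.comp ?_) _
    exact hv.comp_continuous (ell_cont.comp continuous_subtype_val) (fun x => ell_bdc x.1 x.2)
  obtain ⟨w', hw', hwv⟩ := h k v' hv'
  let w : (Fin k → ℝ) → AV n := fun x =>
    if hx : emm x ∈ closedBall (0 : Fin k → ℝ) 1 then uc (w' ⟨emm x, hx⟩).1 else 0
  have hw : ∀ (x : Fin k → ℝ) (hx : x ∈ cub k), w x = uc (w' ⟨emm x, emm_ball x hx⟩).1 := by
    intro x hx
    simp only [w]
    rw [dif_pos (emm_ball x hx)]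
  refine ⟨w, ?_, ?_, ?_⟩
  · rw [continuousOn_iff_continuous_domRestrict]
    have h1 : (cub k).domRestrict w = fun x : cub k => uc (w' ⟨emm x.1, emm_ball x.1 x.2⟩).1 := by
      funext x
      exact hw x.1 x.2
    rw [h1]
    refine uc_cont.comp (continuous_subtype_val.comp (hw'.comp ?_))
    exact Continuous.subtype_mk (emm_cont.comp continuous_subtype_val) _
  · intro x hx
    rw [hw x hx]
    exact uc_mem F _ (w' ⟨emm x, emm_ball x hx⟩).2
  · intro x hx
    rw [hw x hx.1]
    have h1 := hwv ⟨emm x, emm_sphere x hx⟩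
    have h2 : w' ⟨emm x, emm_ball x hx.1⟩ = v' ⟨emm x, emm_sphere x hx⟩ := h1
    rw [h2]
    show uc (co (v (ell (emm x)))) = v x
    rw [ell_emm, uc_co]

end Pool.Agent.Helper38.FX
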