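import Pool.Agent.Helper87.FX.StA

set_option autoImplicit false

namespace Pool.Agent.Helper38.FX

open Set Topology Metric Filter
open scoped ContDiff
open Pool.Agent.Helper87.FX

variable {E : Type} [NormedAddCommGroup E] [NormedSpace ℝ E] [FiniteDimensional ℝ E]

/-- A local smooth inverse of a smooth open embedding of a ball. -/
theorem loc_inv (a : E → E) (R0 : ℝ) (ha : Loc a R0) (x : E) (hx : x ∈ ball (0 : E) R0) :
    ∃ g : E → E, ContDiffAt ℝ ∞ g (a x) ∧ g (a x) = x ∧
      ∀ᶠ y in 𝓝 (a x), g y ∈ ball (0 : E) R0 ∧ a (g y) = y := by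
  have h1 : ContDiffAt ℝ ∞ a x := ha.sm.contDiffAt (isOpen_ball.mem_nhds hx)
  have hn : (∞ : WithTop ℕ∞) ≠ 0 := by simp
  have hd : HasFDerivAt a (fderiv ℝ a x) x := (h1.differentiableAt hn).hasFDerivAt
  let e : E ≃L[ℝ] E := (LinearEquiv.ofInjectiveEndo (fderiv ℝ a x : E →ₗ[ℝ] E) (ha.imm x hx)).toContinuousLinearEquiv
  have he : (e : E →L[ℝ] E) = fderiv ℝ a x := by
    ext v
    rfl
  have hd' : HasFDerivAt a (e : E →L[ℝ] E) x := by rw [he]; exact hd
  refine ⟨h1.localInverse hd' hn, h1.to_localInverse hd' hn, h1.localInverse_apply_image hd' hn, ?_⟩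
  have hc : ContinuousAt (h1.localInverse hd' hn) (a x) := (h1.to_localInverse hd' hn).continuousAt
  have hb : ball (0 : E) R0 ∈ 𝓝 (h1.localInverse hd' hn (a x)) := by
    rw [h1.localInverse_apply_image hd' hn]
    exact isOpen_ball.mem_nhds hx
  have h2 := hc.eventually (show ∀ᶠ z in 𝓝 (h1.localInverse hd' hn (a x)), z ∈ ball (0 : E) R0 from hb)
  have h3 := (h1.hasStrictFDerivAt' hd' hn).eventually_right_inverse
  filter_upwards [h2, h3] with y h4 h5
  exact ⟨h4, h5⟩

theorem hSTP : StLIP → StSTP := by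
  intro lip E _ _ _ a b β r R R0 m η C hr hrR hR0 hm ha hb hβ hβ1 hβ0 hβa hβd hma hab hη hC
  classical
  have hR : 0 < R := hr.trans hrR
  have hn : (∞ : WithTop ℕ∞) ≠ 0 := by simp
  have sub : closedBall (0 : E) R ⊆ ball (0 : E) R0 := closedBall_subset_ball hR0
  have h0R : (0 : E) ∈ closedBall (0 : E) R := mem_closedBall_self hR.le
  have hη0 : 0 ≤ η := (norm_nonneg _).trans (hη 0 h0R)
  have hC0 : 0 ≤ C := (norm_nonneg _).trans (hβd 0)
  have hbx : ∀ x ∈ ball (0 : E) R0, ContDiffAt ℝ ∞ b x := fun x hx => hb.contDiffAt (isOpen_ball.mem_nhds hx)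
  have hax : ∀ x ∈ ball (0 : E) R0, ContDiffAt ℝ ∞ a x := fun x hx => ha.sm.contDiffAt (isOpen_ball.mem_nhds hx)
  -- the difference
  have hΔ : ∀ x ∈ closedBall (0 : E) R, ‖b x - a x‖ ≤ η * R := by
    intro x hx
    have k := (convex_closedBall (0 : E) R).norm_image_sub_le_of_norm_fderiv_le (𝕜 := ℝ)
      (f := fun x => b x - a x) (C := η) (x := 0) (y := x)
      (fun y hy => ((hbx y (sub hy)).differentiableAt hn).sub ((hax y (sub hy)).differentiableAt hn))
      (fun y hy => by
        rw [fderiv_fun_sub ((hbx y (sub hy)).differentiableAt hn) ((hax y (sub hy)).differentiableAt hn)]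
        exact hη y hy) h0R hx
    have k2 : (b 0 - a 0) = 0 := by rw [hab, sub_self]
    simp only [k2, sub_zero] at k
    refine k.trans ?_
    have : ‖x‖ ≤ R := by simpa using hx
    exact mul_le_mul_of_nonneg_left this hη0
  -- the function w
  let g : E → E := Function.invFunOn a (ball (0 : E) R0)
  have hg : ∀ x ∈ ball (0 : E) R0, g (a x) = x := fun x hx => ha.inj.leftInvOn_invFunOn hx
  let w : E → E := fun y => if y ∈ a '' ball (0 : E) R0 then β (g y) • (b (g y) - a (g y)) else 0
  have hwa : ∀ x ∈ ball (0 : E) R0, w (a x) = β x • (b x - a x) := by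
    intro x hx
    simp only [w]
    rw [if_pos ⟨x, hx, rfl⟩, hg x hx]
  -- w vanishes outside of the compact set
  have hcomp : IsClosed (a '' closedBall (0 : E) R) :=
    ((isCompact_closedBall (0 : E) R).image_of_continuousOn (ha.sm.continuousOn.mono sub)).isClosed
  have hw0 : ∀ y, y ∉ a '' closedBall (0 : E) R → w =ᶠ[𝓝 y] fun _ => 0 := by
    intro y hy
    filter_upwards [hcomp.isOpen_compl.mem_nhds hy] with y' hy'
    by_cases h1 : y' ∈ a '' ball (0 : E) R0
    · obtain ⟨x, hx, rfl⟩ := h1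
      rw [hwa x hx]
      have h2 : x ∉ ball (0 : E) R := fun h3 => hy' ⟨x, ball_subset_closedBall h3, rfl⟩
      rw [hβ0 x h2, zero_smul]
    · simp only [w]
      rw [if_neg h1]
  -- w is smooth
  have hwsm : ContDiff ℝ ∞ w := by
    rw [contDiff_iff_contDiffAt]
    intro y
    by_cases hy : y ∈ a '' ball (0 : E) R0
    · obtain ⟨x, hx, rfl⟩ := hy
      obtain ⟨l, l1, l2, l3⟩ := loc_inv a R0 ha x hx
      have h1 : w =ᶠ[𝓝 (a x)] fun y => β (l y) • (b (l y) - a (l y)) := by
        filter_upwards [l3] with y hy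
        have h2 := hwa (l y) hy.1
        rw [hy.2] at h2
        rw [h2, hy.2]
      refine ContDiffAt.congr_of_eventuallyEq ?_ h1
      have h3 : ContDiffAt ℝ ∞ (fun y => β (l y)) (a x) := hβ.contDiffAt.comp (a x) l1
      have h4 : ContDiffAt ℝ ∞ (fun y => b (l y)) (a x) := by
        refine ContDiffAt.comp (g := b) (a x) ?_ l1
        rw [l2]
        exact hbx x hx
      have h5 : ContDiffAt ℝ ∞ (fun y => a (l y)) (a x) := by
        refine ContDiffAt.comp (g := a) (a x) ?_ l1
        rw [l2]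
        exact hax x hx
      exact h3.smul (h4.sub h5)
    · have h1 : y ∉ a '' closedBall (0 : E) R := fun h2 => hy (image_mono sub h2)
      exact ContDiffAt.congr_of_eventuallyEq contDiffAt_const (hw0 y h1)
  -- the derivative is small
  have hwd : ∀ y, ‖fderiv ℝ w y‖ ≤ 1 / 2 := by
    intro y
    by_cases hy : y ∈ a '' closedBall (0 : E) R
    · obtain ⟨x, hx, rfl⟩ := hy
      have hx0 := sub hx
      have da : DifferentiableAt ℝ a x := (hax x hx0).differentiableAt hn
      have db : DifferentiableAt ℝ b x := (hbx x hx0).differentiableAt hn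
      have dβ : DifferentiableAt ℝ β x := hβ.contDiffAt.differentiableAt hn
      have dw : DifferentiableAt ℝ w (a x) := hwsm.contDiffAt.differentiableAt hn
      have e1 : HasFDerivAt (fun x' => w (a x')) ((fderiv ℝ w (a x)).comp (fderiv ℝ a x)) x :=
        dw.hasFDerivAt.comp x da.hasFDerivAt
      have e2 : HasFDerivAt (fun x' => β x' • (b x' - a x'))
          (β x • (fderiv ℝ b x - fderiv ℝ a x) + (fderiv ℝ β x).smulRight (b x - a x)) x :=
        dβ.hasFDerivAt.smul (db.hasFDerivAt.sub da.hasFDerivAt)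
      have e3 : (fun x' => w (a x')) =ᶠ[𝓝 x] fun x' => β x' • (b x' - a x') := by
        filter_upwards [isOpen_ball.mem_nhds hx0] with x' hx'
        exact hwa x' hx'
      have e4 := e1.unique (e2.congr_of_eventuallyEq e3)
      have hsur : Function.Surjective (fderiv ℝ a x) :=
        (LinearMap.injective_iff_surjective (f := (fderiv ℝ a x : E →ₗ[ℝ] E))).1 (ha.imm x hx0)
      refine ContinuousLinearMap.opNorm_le_bound _ (by norm_num) (fun u => ?_)
      obtain ⟨v, rfl⟩ := hsur u
      have e5 : fderiv ℝ w (a x) (fderiv ℝ a x v) =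
          β x • ((fderiv ℝ b x - fderiv ℝ a x) v) + (fderiv ℝ β x v) • (b x - a x) := by
        have := congrArg (fun T : E →L[ℝ] E => T v) e4
        simpa using this
      rw [e5]
      have f1 : ‖β x • ((fderiv ℝ b x - fderiv ℝ a x) v)‖ ≤ 1 * (η * ‖v‖) := by
        rw [norm_smul]
        refine mul_le_mul (by simpa using hβa x) ?_ (norm_nonneg _) zero_le_one
        exact (ContinuousLinearMap.le_opNorm _ _).trans (mul_le_mul_of_nonneg_right (hη x hx) (norm_nonneg _))
      have f2 : ‖(fderiv ℝ β x v) • (b x - a x)‖ ≤ (C * ‖v‖) * (η * R) := by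
        rw [norm_smul]
        refine mul_le_mul ?_ (hΔ x hx) (norm_nonneg _) (mul_nonneg hC0 (norm_nonneg _))
        exact (ContinuousLinearMap.le_opNorm _ _).trans (mul_le_mul_of_nonneg_right (hβd x) (norm_nonneg _))
      have f3 := hma x hx v
      have f4 : ((1 + C * R) * η) * ‖v‖ ≤ (m / 2) * ‖v‖ := mul_le_mul_of_nonneg_right hC (norm_nonneg _)
      calc _ ≤ ‖β x • ((fderiv ℝ b x - fderiv ℝ a x) v)‖ + ‖(fderiv ℝ β x v) • (b x - a x)‖ := norm_add_le _ _
        _ ≤ 1 * (η * ‖v‖) + (C * ‖v‖) * (η * R) := add_le_add f1 f2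
        _ = ((1 + C * R) * η) * ‖v‖ := by ring
        _ ≤ 1 / 2 * (m * ‖v‖) := by linarith
        _ ≤ 1 / 2 * ‖fderiv ℝ a x v‖ := mul_le_mul_of_nonneg_left f3 (by norm_num)
    · rw [(hw0 y hy).fderiv_eq]
      simp
  refine ⟨fun y => y + w y, lip E w hwsm hwd, fun x hx => ?_⟩
  have hx0 : x ∈ ball (0 : E) R0 := sub (closedBall_subset_closedBall hrR.le hx)
  show a x + w (a x) = b x
  rw [hwa x hx0, hβ1 x hx, one_smul]
  abel

end Pool.Agent.Helper38.FX
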