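import Pool.Agent.Helper72.FX.StK

set_option autoImplicit false

namespace Pool.Agent.Helper38.FX

open Polynomial
open Pool.Agent.Helper72.FX

theorem kil_bot (A : Type) [CommRing A] (M : Type) [AddCommGroup M] [Module A M] : kil (⊥ : Ideal A) M := by
  intro x hx y
  rw [(Submodule.mem_bot A).1 hx, zero_smul]

/-- additive functions on complex vector spaces -/
theorem zz_field : ZZ ℂ ⊥ 1 := by
  intro Λ _ χ _ h2
  have h3 : χ.f ℂ = 0 := by
    rw [← h2]
    exact (χ.equiv (gd_kil _) (Submodule.quotEquivOfEqBot (⊥ : Ideal ℂ) rfl) inferInstance (kil_bot _ _)).symm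
  have key : ∀ (k : ℕ) (N : Type) [AddCommGroup N] [Module ℂ N], Module.Finite ℂ N → Module.finrank ℂ N = k →
      χ.f N = 0 := by
    intro k
    induction k with
    | zero =>
      intro N _ _ hf hk
      haveI : Subsingleton N := Module.finrank_zero_iff.1 hk
      exact χ.of_subsingleton (gd_kil _) N
    | succ k ih =>
      intro N _ _ hf hk
      haveI : Nontrivial N := Module.nontrivial_of_finrank_pos (R := ℂ) (by omega)
      obtain ⟨v, hv⟩ := exists_ne (0 : N)
      have e1 := χ.quot (Submodule.span ℂ {v}) hf (kil_bot _ _)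
      have e2 : χ.f (Submodule.span ℂ {v}) = 0 := by
        rw [← h3]
        exact (χ.equiv (gd_kil _) (LinearEquiv.toSpanNonzeroSingleton ℂ N v hv) inferInstance (kil_bot _ _)).symm
      have e3 : χ.f (N ⧸ Submodule.span ℂ {v}) = 0 := by
        refine ih _ inferInstance ?_
        have := Submodule.finrank_quotient_add_finrank (Submodule.span ℂ {v})
        rw [finrank_span_singleton hv, hk] at this
        omega
      rw [e1, e2, e3, add_zero]
  intro N _ _ hf _
  exact key _ N hf rfl

/-- `A[X] / I[X] = (A/I)[X]` -/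
theorem pm_quot (A : Type) [CommRing A] (I : Ideal A) :
    Nonempty ((A[X] ⧸ I.map C) ≃ₗ[A[X]] PolynomialModule A (A ⧸ I)) := by
  let q : A[X] →ₗ[A[X]] PolynomialModule A (A ⧸ I) :=
    LinearMap.toSpanSingleton A[X] _ (PolynomialModule.single A 0 (Ideal.Quotient.mk I 1))
  have hq : ∀ (p : A[X]) (n : ℕ), (q p).coeff n = Ideal.Quotient.mk I (p.coeff n) := by
    intro p n
    have h1 := PolynomialModule.smul_single_apply (R := A) 0 p (Ideal.Quotient.mk I 1 : A ⧸ I) n
    have h2 : q p = p • PolynomialModule.single A 0 (Ideal.Quotient.mk I 1) := rfl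
    rw [h2]
    simp only [Nat.zero_le, if_true, Nat.sub_zero] at h1
    rw [h1]
    rw [← Ideal.Quotient.mk_eq_mk, ← Ideal.Quotient.mk_eq_mk, ← Submodule.Quotient.mk_smul]
    simp
  have hker : LinearMap.ker q = I.map C := by
    ext p
    rw [LinearMap.mem_ker, Ideal.mem_map_C_iff]
    constructor
    · intro h n
      have := hq p n
      rw [h] at this
      exact Ideal.Quotient.eq_zero_iff_mem.1 this.symm
    · intro h
      apply PolynomialModule.ext
      refine Finsupp.ext (fun n => ?_)
      rw [hq p n, Ideal.Quotient.eq_zero_iff_mem.2 (h n)]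
      rfl
  have hsur : Function.Surjective q := by
    rw [← LinearMap.range_eq_top, eq_top_iff]
    intro g _
    induction g using PolynomialModule.induction_linear with
    | zero => exact Submodule.zero_mem _
    | add g h hg hh => exact Submodule.add_mem _ (hg trivial) (hh trivial)
    | single n m =>
      obtain ⟨a, rfl⟩ := Ideal.Quotient.mk_surjective m
      refine ⟨monomial n a, ?_⟩
      have h2 : q (monomial n a) = (monomial n a : A[X]) • PolynomialModule.single A 0 (Ideal.Quotient.mk I 1) := rfl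
      rw [h2, PolynomialModule.monomial_smul_single, add_zero]
      congr 1
      rw [← Ideal.Quotient.mk_eq_mk, ← Ideal.Quotient.mk_eq_mk, ← Submodule.Quotient.mk_smul]
      simp
  exact ⟨(Submodule.quotEquivOfEq _ _ hker.symm).trans (q.quotKerEquivOfSurjective hsur)⟩

/-- the step to the polynomial ring -/
theorem zz_step (hom : StHOM) (pmx : StPMX) (A : Type) [CommRing A] [IsNoetherianRing A] (I : Ideal A)
    (h : ZZ A I 1) : ZZ A[X] (I.map C) 1 := by
  intro Λ _ χ h1 h2
  apply hom pmx A I Λ χ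
  let ψ : AF A (kil I) Λ :=
    { f := fun M _ _ => χ.f (PolynomialModule A M)
      exact' := by
        intro M N Q _ _ _ _ _ _ i p hf hN hi hex hp
        obtain ⟨a1, _, a3, _, _, _⟩ := pmx A M N Q i p
        obtain ⟨_, b2, _, _, _, _⟩ := pmx A N Q Q p LinearMap.id
        obtain ⟨_, _, _, c4, c5, _⟩ := pmx A N N N LinearMap.id LinearMap.id
        exact χ.exact' _ _ _ (pmap i) (pmap p) (c4 hf) (c5 I hN) (a1 hi) (a3 hex) (b2 hp) }
  have h3 := h Λ ψ ?_ ?_
  · intro M _ _ hf hM
    exact h3 M hf hM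
  · intro N _ _ hf hN hy
    haveI : Subsingleton N := ⟨fun a b => by
      have ha := hy a
      have hb := hy b
      rw [one_smul] at ha hb
      rw [ha, hb]⟩
    have hs : Subsingleton (PolynomialModule A N) := ⟨fun a b => PolynomialModule.ext (Finsupp.ext (fun n => Subsingleton.elim _ _))⟩
    exact χ.of_subsingleton (gd_kil _) _
  · show χ.f (PolynomialModule A (A ⧸ I)) = 0
    rw [← h2]
    obtain ⟨e⟩ := pm_quot A I
    obtain ⟨_, _, _, c4, c5, _⟩ := pmx A (A ⧸ I) (A ⧸ I) (A ⧸ I) LinearMap.id LinearMap.id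
    exact (χ.equiv (gd_kil _) e (c4 inferInstance) (c5 I (kil_quot I))).symm

theorem hZP : StZP := by
  intro hom pmx zt
  have first : ∀ n : ℕ, ZZ (MvPolynomial (Fin n) ℂ) ⊥ 1 := by
    intro n
    induction n with
    | zero =>
      have h := zt (MvPolynomial (Fin 0) ℂ) ℂ MvPolynomial.C ⊥ 1 (fun a => by
        obtain ⟨b, hb⟩ := MvPolynomial.C_surjective (R := ℂ) (Fin 0) a
        exact ⟨b, by rw [hb, sub_self]; exact Submodule.zero_mem _⟩) (by
        have : Ideal.comap (MvPolynomial.C : ℂ →+* MvPolynomial (Fin 0) ℂ) ⊥ = ⊥ := by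
          rw [← RingHom.ker_eq_comap_bot, RingHom.ker_eq_bot_iff_eq_zero]
          intro x hx
          exact (MvPolynomial.C_injective (Fin 0) ℂ) (by rw [hx, map_zero])
        rw [this]
        exact zz_field)
      rwa [map_one] at h
    | succ n ih =>
      let φ : (MvPolynomial (Fin n) ℂ)[X] →+* MvPolynomial (Fin (n + 1)) ℂ :=
        ((MvPolynomial.finSuccEquiv ℂ n).symm : (MvPolynomial (Fin n) ℂ)[X] →+* MvPolynomial (Fin (n + 1)) ℂ)
      have h := zt (MvPolynomial (Fin (n + 1)) ℂ) ((MvPolynomial (Fin n) ℂ)[X]) φ ⊥ 1 (fun a => by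
        refine ⟨MvPolynomial.finSuccEquiv ℂ n a, ?_⟩
        have : φ (MvPolynomial.finSuccEquiv ℂ n a) = a := (MvPolynomial.finSuccEquiv ℂ n).symm_apply_apply a
        rw [this, sub_self]
        exact Submodule.zero_mem _) (by
        have : Ideal.comap φ ⊥ = Ideal.map C (⊥ : Ideal (MvPolynomial (Fin n) ℂ)) := by
          rw [Ideal.map_bot, ← RingHom.ker_eq_comap_bot, RingHom.ker_eq_bot_iff_eq_zero]
          intro x hx
          exact (MvPolynomial.finSuccEquiv ℂ n).symm.injective (by
            have h0 : (MvPolynomial.finSuccEquiv ℂ n).symm x = 0 := hx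
            rw [h0, map_zero])
        rw [this]
        exact zz_step hom pmx _ ⊥ ih)
      rwa [map_one] at h
  refine ⟨first, fun n i => ?_⟩
  let φ : MvPolynomial (Fin n) ℂ →+* MvPolynomial (Fin (n + 1)) ℂ :=
    (MvPolynomial.rename (R := ℂ) (Fin.succAbove i) : MvPolynomial (Fin n) ℂ →ₐ[ℂ] MvPolynomial (Fin (n + 1)) ℂ)
  let ev : MvPolynomial (Fin (n + 1)) ℂ →ₐ[ℂ] MvPolynomial (Fin n) ℂ :=
    MvPolynomial.aeval (Fin.insertNth (α := fun _ => MvPolynomial (Fin n) ℂ) i 0 (fun j => MvPolynomial.X j))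
  have ev1 : ev (MvPolynomial.X i) = 0 := by
    simp only [ev, MvPolynomial.aeval_X, Fin.insertNth_apply_same]
  have ev2 : ∀ j, ev (MvPolynomial.X (i.succAbove j)) = MvPolynomial.X j := by
    intro j
    simp only [ev, MvPolynomial.aeval_X, Fin.insertNth_apply_succAbove]
  have ev3 : ∀ a, ev (φ a) = a := by
    intro a
    have : (ev.comp (MvPolynomial.rename (R := ℂ) (Fin.succAbove i))) = AlgHom.id ℂ _ := by
      apply MvPolynomial.algHom_ext
      intro j
      rw [AlgHom.comp_apply, MvPolynomial.rename_X, ev2]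
      rfl
    exact congrArg (fun f : MvPolynomial (Fin n) ℂ →ₐ[ℂ] MvPolynomial (Fin n) ℂ => f a) this
  have h := zt (MvPolynomial (Fin (n + 1)) ℂ) (MvPolynomial (Fin n) ℂ) φ (Ideal.span {MvPolynomial.X i}) 1
    (fun a => by
      refine ⟨ev a, ?_⟩
      rw [← Ideal.Quotient.eq]
      have : (Ideal.Quotient.mkₐ ℂ (Ideal.span {(MvPolynomial.X i : MvPolynomial (Fin (n + 1)) ℂ)})) =
          ((Ideal.Quotient.mkₐ ℂ (Ideal.span {(MvPolynomial.X i : MvPolynomial (Fin (n + 1)) ℂ)})).comp
            (MvPolynomial.rename (R := ℂ) (Fin.succAbove i))).comp ev := by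
        apply MvPolynomial.algHom_ext
        intro j
        rw [AlgHom.comp_apply, AlgHom.comp_apply]
        rcases Fin.eq_self_or_eq_succAbove i j with hj | ⟨j', hj⟩
        · rw [hj, ev1, map_zero, map_zero]
          rw [Ideal.Quotient.mkₐ_eq_mk]
          exact Ideal.Quotient.eq_zero_iff_mem.2 (Ideal.subset_span rfl)
        · rw [hj, ev2, MvPolynomial.rename_X]
      exact congrArg (fun f : MvPolynomial (Fin (n + 1)) ℂ →ₐ[ℂ] _ => f a) this) (by
      have : Ideal.comap φ (Ideal.span {(MvPolynomial.X i : MvPolynomial (Fin (n + 1)) ℂ)}) = ⊥ := by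
        rw [eq_bot_iff]
        intro a ha
        rw [Ideal.mem_comap, Ideal.mem_span_singleton] at ha
        obtain ⟨c, hc⟩ := ha
        rw [Submodule.mem_bot, ← ev3 a, hc, map_mul, ev1, zero_mul]
      rw [this]
      exact first n)
  rwa [map_one] at h

end Pool.Agent.Helper38.FX
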